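import Pool.Agent.H185C.Defs
import Pool.Agent.N328.LF.Defs

/-!
Project CD (helper328): cycle double covers of almost all lifts of a cubic graph (MP_20b97f_co).
-/

set_option autoImplicit false

namespace Pool.Agent.N328.CD
open Finset Pool.Agent.H160R2.HF Pool.Agent.N328.LF

section
variable {V E : Type} [Fintype V] [Fintype E] [DecidableEq V] [DecidableEq E]

/-- five even subgraphs covering every edge exactly twice -/
def FiveCDC (G : OrGraph V E) : Prop :=
  ∃ C : Fin 5 → Finset E, (∀ i v, Even (G.deg (C i) v)) ∧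
    ∀ e, (univ.filter (fun i => e ∈ C i)).card = 2

/-- the ends of the edges of `J` -/
def ends (G : OrGraph V E) (J : Finset E) : Finset V :=
  univ.filter (fun v => ∃ j ∈ J, G.t j = v ∨ G.h j = v)

/-- the vertices of the cycle of `π` through `x` -/
noncomputable def circ (π : Equiv.Perm V) (x : V) : Finset V :=
  letI := Classical.decPred (fun y => π.SameCycle x y)
  univ.filter (fun y => π.SameCycle x y)

/-- the two edges `a`, `b` are at distance more than `r` -/
def Far (G : OrGraph V E) (r : ℕ) (a b : E) : Prop :=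
  ¬ Pool.Agent.H185C.Near G r (G.t a) (G.t b) ∧ ¬ Pool.Agent.H185C.Near G r (G.t a) (G.h b) ∧
    ¬ Pool.Agent.H185C.Near G r (G.h a) (G.t b) ∧ ¬ Pool.Agent.H185C.Near G r (G.h a) (G.h b)

/-- the permutation of `Fin N` over the edge `ε v` from `v` to `s v` -/
def sg (B : OrGraph V E) (s : Equiv.Perm V) (ε : V → E) {N : ℕ} (p : E → Equiv.Perm (Fin N))
    (v : V) : Equiv.Perm (Fin N) :=
  if B.t (ε v) = v ∧ B.h (ε v) = s v then p (ε v) else (p (ε v))⁻¹

/-- the 2-factor `s` of `B`, lifted -/
def lperm (B : OrGraph V E) (s : Equiv.Perm V) (ε : V → E) {N : ℕ} (p : E → Equiv.Perm (Fin N)) :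
    Equiv.Perm (V × Fin N) where
  toFun x := (s x.1, sg B s ε p x.1 x.2)
  invFun x := (s.symm x.1, (sg B s ε p (s.symm x.1)).symm x.2)
  left_inv x := by simp
  right_inv x := by simp

/-- the vertices of the lift on cycles of the lifted 2-factor with fewer than `ℓ` vertices -/
noncomputable def shortV (B : OrGraph V E) (s : Equiv.Perm V) (ε : V → E) {N : ℕ}
    (p : E → Equiv.Perm (Fin N)) (ℓ : ℕ) : Finset (V × Fin N) :=
  univ.filter (fun x => (circ (lperm B s ε p) x).card < ℓ)

/-- the number of cycles of the lifted 2-factor -/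
noncomputable def ncyc (B : OrGraph V E) (s : Equiv.Perm V) (ε : V → E) {N : ℕ}
    (p : E → Equiv.Perm (Fin N)) : ℕ :=
  (univ.image (circ (lperm B s ε p))).card

end

end Pool.Agent.N328.CD
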