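import Pool.Agent.N328.LF.Exp
import Pool.Agent.N622.LF.Str
import Pool.Agent.TH583.FO.Main
import Pool.Agent.H185C.Perm
import Pool.Agent.N225.CD.Tj
import Pool.Agent.N152.CD.Five
import Pool.Agent.N247.CD.Two
import Pool.Agent.N278.CD.Cut
import Pool.Agent.N75.CD.Sel
import Pool.Agent.N645.CD.Tree
import Pool.Agent.N887.CD.Par
import Pool.Agent.N491.CD.Lp
import Pool.Agent.N491.CD.Edg
import Pool.Agent.N878.CD.Ret
import Pool.Agent.N364.CD.Cnt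

/-!
Assembly: almost all lifts of a connected bridgeless cubic graph have a cycle double cover.
-/

set_option autoImplicit false

namespace Pool.Agent.N328.CD
open Finset Pool.Agent.H160R2.HF Pool.Agent.N328.LF
open Pool.Agent.H185C (Near Conn IsPerm)

variable {V E : Type} [Fintype V] [Fintype E] [DecidableEq V] [DecidableEq E]

theorem det (q K : ℕ) (hq : 1 ≤ q) (G : OrGraph V E) (hc : G.Cubic) (hl : ∀ e, G.t e ≠ G.h e)
    (hgood : Good q (4 ^ (10 * q + 5)) G)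
    (F : Finset E) (hF : G.IsTwoFactor F) (π : Equiv.Perm V) (ε : V → E)
    (hπ : IsPerm G F π ε) (hK : (univ.image (circ π)).card ≤ K)
    (hA : ∀ e, e ∉ F → ¬ ((circ π (G.t e)).card < q * (K * 4 ^ (6 * q + 2) + 1) ∧
      (circ π (G.h e)).card < q * (K * 4 ^ (6 * q + 2) + 1))) : FiveCDC G := by
  classical
  obtain ⟨hexp, hsmall⟩ := hgood
  have htj : ∀ (D : Finset E) (G : OrGraph V E) (T : Finset V),
      (∀ X : Finset V, G.cut X ∩ D = ∅ → Even (X ∩ T).card) →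
      ∃ K ⊆ D, ∀ v, (Odd (G.deg K v) ↔ v ∈ T) := fun D G T h => Pool.Agent.N225.CD.tj G D T h
  have hG : ∀ X : Finset V, X.Nonempty → Xᶜ.Nonempty → (G.cut X).Nonempty := by
    have key : ∀ X : Finset V, X.Nonempty → 2 * X.card ≤ Fintype.card V → (G.cut X).Nonempty := by
      intro X hX h2
      rw [← card_pos]
      have h3 := hexp X h2
      rcases Nat.eq_zero_or_pos (G.cut X).card with h | h
      · rw [h] at h3
        have := hX.card_pos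
        omega
      · exact h
    intro X hX hXc
    have h1 := card_add_card_compl X
    rcases Nat.le_total (2 * X.card) (Fintype.card V) with h | h
    · exact key X hX h
    · rw [← Pool.Agent.H185C.cut_compl G X]
      exact key Xᶜ hXc (by omega)
  obtain ⟨s, hs1, hs2, hs3⟩ := Pool.Agent.N75.CD.sel q G hc hsmall F hF π ε hπ
  obtain ⟨S, hS1, hS2, hS3⟩ := Pool.Agent.N645.CD.tree q K hq G hc hl hexp F hF π ε hπ hK hA
    s hs1 hs2 hs3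
  obtain ⟨J, hJS, hJ⟩ := Pool.Agent.N887.CD.par htj G hc F hF S hS1 hS3
  have hJF : J ∩ F = ∅ := by
    rw [← subset_empty, ← hS1]
    exact inter_subset_inter_right hJS
  have hcut := Pool.Agent.N278.CD.cut q G hc hl hexp hsmall F hF J hJF hJ
    (fun a ha b hb hab => hS2 a (hJS ha) b (hJS hb) hab)
  obtain ⟨K₁, K₂, h12, h1, h2, hd1, hd2⟩ := Pool.Agent.N247.CD.two htj G hc hl hG F hF J hJF hcut
  exact Pool.Agent.N152.CD.five htj G hc F hF J hJF hJ K₁ K₂ h12 h1 h2 hd1 hd2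

/-- **Main theorem.** -/
theorem main (B : OrGraph V E) (hc : B.Cubic) (hb : B.Bridgeless) (hB : Connected B) :
    ∃ C : ℝ, ∀ N : ℕ, 1 ≤ N →
      (({p : E → Equiv.Perm (Fin N) | ¬ FiveCDC (lift B p)}.ncard : ℕ) : ℝ) ≤
        C * (N : ℝ) ^ (-(1 / 10) : ℝ) * ((N.factorial : ℝ) ^ Fintype.card E) := by
  classical
  obtain ⟨F, hF, h3, _⟩ := Pool.Agent.TH583.FO.factor B hc hb (fun _ => 0) (fun _ => le_rfl)
  obtain ⟨s, ε, hs⟩ := Pool.Agent.H185C.exists_perm B F hF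
  obtain ⟨q, hq, hq2⟩ := exp_lift B hc hB
  obtain ⟨C₁, hC₁⟩ := hq2 (4 ^ (10 * q + 5))
  obtain ⟨n, hn⟩ : ∃ n : ℕ, n = Fintype.card V := ⟨_, rfl⟩
  obtain ⟨m, hm⟩ : ∃ m : ℕ, m = Fintype.card E := ⟨_, rfl⟩
  obtain ⟨A, hA⟩ : ∃ A : ℝ, A = q * ((2 * n + 1) * 4 ^ (6 * q + 2) + 1) := ⟨_, rfl⟩
  have hq0 : (0 : ℝ) < q := by exact_mod_cast hq
  have hA0 : 0 < A := by rw [hA]; positivity
  obtain ⟨C₂, hC₂⟩ := Pool.Agent.N364.CD.cnt
    (fun B F s ε hs N x k => Pool.Agent.N878.CD.ret B F s ε hs N x k) B F s ε hs A hA0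
  refine ⟨|C₁| + C₂ + m, fun N hN => ?_⟩
  have hN1 : (1 : ℝ) ≤ N := by exact_mod_cast hN
  have hN0 : (0 : ℝ) < N := by linarith
  obtain ⟨K, hKdef⟩ : ∃ K : ℕ, K = ⌊(2 * n + 1 : ℝ) * (N : ℝ) ^ (1 / 8 : ℝ)⌋₊ := ⟨_, rfl⟩
  obtain ⟨ℓ, hℓ⟩ : ∃ ℓ : ℕ, ℓ = q * (K * 4 ^ (6 * q + 2) + 1) := ⟨_, rfl⟩
  obtain ⟨w, hw⟩ : ∃ w : ℕ, w = ⌊(N : ℝ) ^ (1 / 4 : ℝ)⌋₊ := ⟨_, rfl⟩
  have hN8 : (1 : ℝ) ≤ (N : ℝ) ^ (1 / 8 : ℝ) := Real.one_le_rpow hN1 (by norm_num)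
  have hKle : (K : ℝ) ≤ (2 * n + 1 : ℝ) * (N : ℝ) ^ (1 / 8 : ℝ) := by
    rw [hKdef]; exact Nat.floor_le (by positivity)
  have hwle : (w : ℝ) ≤ (N : ℝ) ^ (1 / 4 : ℝ) := by
    rw [hw]; exact Nat.floor_le (by positivity)
  have hℓle : (ℓ : ℝ) ≤ A * (N : ℝ) ^ (1 / 8 : ℝ) := by
    rw [hℓ, hA]
    push_cast
    calc (q : ℝ) * (K * 4 ^ (6 * q + 2) + 1)
        ≤ q * ((2 * n + 1 : ℝ) * (N : ℝ) ^ (1 / 8 : ℝ) * 4 ^ (6 * q + 2) +
          (N : ℝ) ^ (1 / 8 : ℝ)) := by gcongr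
      _ = _ := by ring
  have hsub : {p : E → Equiv.Perm (Fin N) | ¬ FiveCDC (lift B p)} ⊆
      ({p : E → Equiv.Perm (Fin N) | ¬ Good q (4 ^ (10 * q + 5)) (lift B p)} ∪
      {p : E → Equiv.Perm (Fin N) |
        (2 * Fintype.card V + 1 : ℝ) * (N : ℝ) ^ (1 / 8 : ℝ) < ncyc B s ε p ∨
        ∃ ℓ : ℕ, (ℓ : ℝ) ≤ A * (N : ℝ) ^ (1 / 8 : ℝ) ∧
          (N : ℝ) ^ (1 / 4 : ℝ) < (shortV B s ε p ℓ).card}) ∪
      {p : E → Equiv.Perm (Fin N) | (shortV B s ε p ℓ).card ≤ w ∧ ∃ e, e ∉ F ∧ ∃ i,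
        (B.t e, i) ∈ shortV B s ε p ℓ ∧ (B.h e, p e i) ∈ shortV B s ε p ℓ} := by
    intro p hp
    by_contra hcon
    simp only [Set.mem_union, Set.mem_ofPred_eq, not_or, not_exists, not_and, not_lt,
      not_not] at hcon hp
    obtain ⟨⟨g1, g2, g3⟩, g4⟩ := hcon
    apply hp
    obtain ⟨s1, s2, _⟩ := Pool.Agent.N622.LF.str V E B hc hb F hF h3 N p
    obtain ⟨ε', hε'⟩ := Pool.Agent.N491.CD.lp B F s ε hs N p
    have hK : (univ.image (circ (lperm B s ε p))).card ≤ K := by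
      rw [hKdef]
      apply Nat.le_floor
      rw [hn]
      exact g2
    refine det q K hq (lift B p) s1 ?_ g1 (F ×ˢ univ) s2 (lperm B s ε p) ε' hε' hK ?_
    · intro e he
      have h4 : B.t e.1 = B.h e.1 := congrArg Prod.fst he
      exact Pool.Agent.TH583.FO.noloop B hc hb e.1 h4
    · rintro ⟨e, i⟩ he ⟨h5, h6⟩
      rw [← hℓ] at h5 h6
      have he' : e ∉ F := fun h => he (by simp [h])
      refine g4 ?_ e he' i ?_ ?_
      · rw [hw]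
        apply Nat.le_floor
        exact g3 ℓ hℓle
      · rw [shortV, mem_filter]
        exact ⟨mem_univ _, h5⟩
      · rw [shortV, mem_filter]
        exact ⟨mem_univ _, h6⟩
  have h4 := Set.ncard_le_ncard hsub (Set.toFinite _)
  have h5 := h4.trans (Set.ncard_union_le _ _)
  have h6 := h5.trans (Nat.add_le_add_right (Set.ncard_union_le _ _) _)
  have h7 := hC₁ N hN
  have h8 := hC₂ N hN
  have h9 := Pool.Agent.N491.CD.edg Pool.Agent.N286.LF.u1 B F s ε hs N ℓ w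
  have h10 : ((({p : E → Equiv.Perm (Fin N) | ¬ FiveCDC (lift B p)}.ncard : ℕ)) : ℝ) ≤ _ :=
    Nat.cast_le.2 h6
  refine h10.trans ?_
  push_cast
  have hf : (0 : ℝ) ≤ (N.factorial : ℝ) ^ Fintype.card E := by positivity
  have e1 : C₁ / N * ((N.factorial : ℝ) ^ Fintype.card E) ≤
      |C₁| * (N : ℝ) ^ (-(1 / 10) : ℝ) * ((N.factorial : ℝ) ^ Fintype.card E) := by
    apply mul_le_mul_of_nonneg_right _ hf
    have : (1 : ℝ) / N ≤ (N : ℝ) ^ (-(1 / 10) : ℝ) := by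
      rw [one_div, ← Real.rpow_neg_one]
      exact Real.rpow_le_rpow_of_exponent_le hN1 (by norm_num)
    calc C₁ / N ≤ |C₁| / N := by gcongr; exact le_abs_self _
      _ = |C₁| * (1 / N) := by ring
      _ ≤ _ := by gcongr
  obtain ⟨b, hb'⟩ : ∃ b : ℕ, b = {p : E → Equiv.Perm (Fin N) | (shortV B s ε p ℓ).card ≤ w ∧
      ∃ e, e ∉ F ∧ ∃ i,
        (B.t e, i) ∈ shortV B s ε p ℓ ∧ (B.h e, p e i) ∈ shortV B s ε p ℓ}.ncard := ⟨_, rfl⟩
  rw [← hb'] at h9 ⊢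
  have e2 : (b : ℝ) ≤ m * (N : ℝ) ^ (-(1 / 10) : ℝ) * ((N.factorial : ℝ) ^ Fintype.card E) := by
    have h11 : (b : ℝ) * N ≤ m * (w : ℝ) ^ 2 * (N.factorial : ℝ) ^ Fintype.card E := by
      rw [hm]; exact_mod_cast h9
    have h12 : (w : ℝ) ^ 2 ≤ (N : ℝ) ^ (1 / 2 : ℝ) := by
      calc (w : ℝ) ^ 2 ≤ ((N : ℝ) ^ (1 / 4 : ℝ)) ^ 2 := by gcongr
        _ = (N : ℝ) ^ (1 / 2 : ℝ) := by
          rw [← Real.rpow_natCast, ← Real.rpow_mul hN0.le]; norm_num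
    have h13 : (N : ℝ) ^ (1 / 2 : ℝ) ≤ (N : ℝ) ^ (-(1 / 10) : ℝ) * N := by
      calc (N : ℝ) ^ (1 / 2 : ℝ) ≤ (N : ℝ) ^ (-(1 / 10) + 1 : ℝ) :=
            Real.rpow_le_rpow_of_exponent_le hN1 (by norm_num)
        _ = _ := by rw [Real.rpow_add hN0, Real.rpow_one]
    have h14 : (b : ℝ) * N ≤
        m * (N : ℝ) ^ (-(1 / 10) : ℝ) * ((N.factorial : ℝ) ^ Fintype.card E) * N := by
      calc (b : ℝ) * N ≤ m * (w : ℝ) ^ 2 * (N.factorial : ℝ) ^ Fintype.card E := h11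
        _ ≤ m * ((N : ℝ) ^ (-(1 / 10) : ℝ) * N) * (N.factorial : ℝ) ^ Fintype.card E := by
          gcongr
          exact h12.trans h13
        _ = _ := by ring
    exact le_of_mul_le_mul_right h14 hN0
  calc _ ≤ |C₁| * (N : ℝ) ^ (-(1 / 10) : ℝ) * ((N.factorial : ℝ) ^ Fintype.card E) +
        C₂ * (N : ℝ) ^ (-(1 / 10) : ℝ) * ((N.factorial : ℝ) ^ Fintype.card E) +
        m * (N : ℝ) ^ (-(1 / 10) : ℝ) * ((N.factorial : ℝ) ^ Fintype.card E) :=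
        add_le_add (add_le_add (h7.trans e1) h8) e2
    _ = _ := by ring

end Pool.Agent.N328.CD
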