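import Pool.Agent.N328.CD.Defs

/-!
Statements of the tasks of project CD (helper328).
-/

set_option autoImplicit false

namespace Pool.Agent.N328.CD.Stm
open Finset Pool.Agent.H160R2.HF Pool.Agent.N328.LF Pool.Agent.N328.CD
open Pool.Agent.H185C (Near Conn IsPerm)

section det
variable {V E : Type} [Fintype V] [Fintype E] [DecidableEq V] [DecidableEq E]

/-- CD/TJ: `T`-joins in a set `D` of edges. -/
theorem tj (G : OrGraph V E) (D : Finset E) (T : Finset V)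
    (h : ∀ X : Finset V, G.cut X ∩ D = ∅ → Even (X ∩ T).card) :
    ∃ K ⊆ D, ∀ v, (Odd (G.deg K v) ↔ v ∈ T) := by
  sorry

/-- CD/FIVE: five even subgraphs from two disjoint joins. -/
theorem five
    (htj : ∀ (D : Finset E) (G : OrGraph V E) (T : Finset V),
      (∀ X : Finset V, G.cut X ∩ D = ∅ → Even (X ∩ T).card) →
      ∃ K ⊆ D, ∀ v, (Odd (G.deg K v) ↔ v ∈ T))
    (G : OrGraph V E) (hc : G.Cubic) (F : Finset E) (hF : G.IsTwoFactor F)
    (J : Finset E) (hJ : J ∩ F = ∅)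
    (hpar : ∀ X : Finset V, G.cut X ∩ F = ∅ → Even (X.card + (X ∩ ends G J).card))
    (K₁ K₂ : Finset E) (h12 : K₁ ∩ K₂ = ∅) (h1 : K₁ ∩ J = ∅) (h2 : K₂ ∩ J = ∅)
    (hd1 : ∀ v, (Odd (G.deg K₁ v) ↔ v ∈ ends G J))
    (hd2 : ∀ v, (Odd (G.deg K₂ v) ↔ v ∈ ends G J)) : FiveCDC G := by
  sorry

/-- CD/TWO: two disjoint joins from the cut condition (Hoffman). -/
theorem two
    (htj : ∀ (D : Finset E) (G : OrGraph V E) (T : Finset V),
      (∀ X : Finset V, G.cut X ∩ D = ∅ → Even (X ∩ T).card) →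
      ∃ K ⊆ D, ∀ v, (Odd (G.deg K v) ↔ v ∈ T))
    (G : OrGraph V E) (hc : G.Cubic) (hl : ∀ e, G.t e ≠ G.h e)
    (hG : ∀ X : Finset V, X.Nonempty → Xᶜ.Nonempty → (G.cut X).Nonempty)
    (F : Finset E) (hF : G.IsTwoFactor F) (J : Finset E) (hJ : J ∩ F = ∅)
    (hcut : ∀ X : Finset V, X.Nonempty → Xᶜ.Nonempty → Conn G X → Conn G Xᶜ →
      3 * (G.cut X ∩ J).card ≤ (G.cut X).card) :
    ∃ K₁ K₂ : Finset E, K₁ ∩ K₂ = ∅ ∧ K₁ ∩ J = ∅ ∧ K₂ ∩ J = ∅ ∧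
      (∀ v, (Odd (G.deg K₁ v) ↔ v ∈ ends G J)) ∧ ∀ v, (Odd (G.deg K₂ v) ↔ v ∈ ends G J) := by
  sorry

/-- CD/CUT: the cut condition from expansion and distance. -/
theorem cut (q : ℕ) (G : OrGraph V E) (hc : G.Cubic) (hl : ∀ e, G.t e ≠ G.h e)
    (hexp : ∀ X : Finset V, 2 * X.card ≤ Fintype.card V → X.card ≤ q * (G.cut X).card)
    (hsmall : ∀ X : Finset V, X.card ≤ 4 ^ (10 * q + 5) → X.card ≤ (G.cut X).card + 1)
    (F : Finset E) (hF : G.IsTwoFactor F) (J : Finset E) (hJ : J ∩ F = ∅)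
    (hpar : ∀ X : Finset V, G.cut X ∩ F = ∅ → Even (X.card + (X ∩ ends G J).card))
    (hfar : ∀ a ∈ J, ∀ b ∈ J, a ≠ b → Far G (6 * q) a b) :
    ∀ X : Finset V, X.Nonempty → Xᶜ.Nonempty → Conn G X → Conn G Xᶜ →
      3 * (G.cut X ∩ J).card ≤ (G.cut X).card := by
  sorry

/-- CD/SEL: one vertex on every circuit of the 2-factor, pairwise far apart (Haxell). -/
theorem sel (q : ℕ) (G : OrGraph V E) (hc : G.Cubic)
    (hsmall : ∀ X : Finset V, X.card ≤ 4 ^ (10 * q + 5) → X.card ≤ (G.cut X).card + 1)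
    (F : Finset E) (hF : G.IsTwoFactor F) (π : Equiv.Perm V) (ε : V → E)
    (hπ : IsPerm G F π ε) :
    ∃ s : V → V, (∀ x, π.SameCycle x (s x)) ∧ (∀ x y, π.SameCycle x y → s x = s y) ∧
      ∀ x y, ¬ π.SameCycle x y → ¬ Near G (6 * q + 2) (s x) (s y) := by
  sorry

/-- CD/TREE: far edges outside the 2-factor connecting all its circuits. -/
theorem tree (q K : ℕ) (hq : 1 ≤ q) (G : OrGraph V E) (hc : G.Cubic) (hl : ∀ e, G.t e ≠ G.h e)
    (hexp : ∀ X : Finset V, 2 * X.card ≤ Fintype.card V → X.card ≤ q * (G.cut X).card)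
    (F : Finset E) (hF : G.IsTwoFactor F) (π : Equiv.Perm V) (ε : V → E)
    (hπ : IsPerm G F π ε) (hK : (univ.image (circ π)).card ≤ K)
    (hA : ∀ e, e ∉ F → ¬ ((circ π (G.t e)).card < q * (K * 4 ^ (6 * q + 2) + 1) ∧
      (circ π (G.h e)).card < q * (K * 4 ^ (6 * q + 2) + 1)))
    (s : V → V) (hs1 : ∀ x, π.SameCycle x (s x)) (hs2 : ∀ x y, π.SameCycle x y → s x = s y)
    (hs3 : ∀ x y, ¬ π.SameCycle x y → ¬ Near G (6 * q + 2) (s x) (s y)) :
    ∃ S : Finset E, S ∩ F = ∅ ∧ (∀ a ∈ S, ∀ b ∈ S, a ≠ b → Far G (6 * q) a b) ∧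
      ∀ X : Finset V, X.Nonempty → Xᶜ.Nonempty → (G.cut X ∩ (F ∪ S)).Nonempty := by
  sorry

/-- CD/PAR: a set of far edges with the right parities. -/
theorem par
    (htj : ∀ (D : Finset E) (G : OrGraph V E) (T : Finset V),
      (∀ X : Finset V, G.cut X ∩ D = ∅ → Even (X ∩ T).card) →
      ∃ K ⊆ D, ∀ v, (Odd (G.deg K v) ↔ v ∈ T))
    (G : OrGraph V E) (hc : G.Cubic) (F : Finset E) (hF : G.IsTwoFactor F)
    (S : Finset E) (hS : S ∩ F = ∅)
    (hconn : ∀ X : Finset V, X.Nonempty → Xᶜ.Nonempty → (G.cut X ∩ (F ∪ S)).Nonempty) :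
    ∃ J ⊆ S, ∀ X : Finset V, G.cut X ∩ F = ∅ → Even (X.card + (X ∩ ends G J).card) := by
  sorry

/-- CD/LP: the lifted 2-factor as a permutation. -/
theorem lp (B : OrGraph V E) (F : Finset E) (s : Equiv.Perm V) (ε : V → E)
    (hs : IsPerm B F s ε) (N : ℕ) (p : E → Equiv.Perm (Fin N)) :
    ∃ ε' : V × Fin N → E × Fin N, IsPerm (lift B p) (F ×ˢ univ) (lperm B s ε p) ε' := by
  sorry

/-- CD/RET: the length of the cycle through a given point. -/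
theorem ret (B : OrGraph V E) (F : Finset E) (s : Equiv.Perm V) (ε : V → E)
    (hs : IsPerm B F s ε) (N : ℕ) (x : V × Fin N) (k : ℕ) :
    {p : E → Equiv.Perm (Fin N) | (circ (lperm B s ε p) x).card = k}.ncard * (N - k) ≤
      N.factorial ^ Fintype.card E := by
  sorry

/-- CD/CNT: few cycles, few vertices on short cycles. -/
theorem cnt
    (hret : ∀ (B : OrGraph V E) (F : Finset E) (s : Equiv.Perm V) (ε : V → E),
      IsPerm B F s ε → ∀ (N : ℕ) (x : V × Fin N) (k : ℕ),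
      {p : E → Equiv.Perm (Fin N) | (circ (lperm B s ε p) x).card = k}.ncard * (N - k) ≤
        N.factorial ^ Fintype.card E)
    (B : OrGraph V E) (F : Finset E) (s : Equiv.Perm V) (ε : V → E) (hs : IsPerm B F s ε)
    (A : ℝ) (hA : 0 < A) :
    ∃ C : ℝ, ∀ N : ℕ, 1 ≤ N →
      (({p : E → Equiv.Perm (Fin N) |
        (2 * Fintype.card V + 1 : ℝ) * (N : ℝ) ^ (1 / 8 : ℝ) < ncyc B s ε p ∨
        ∃ ℓ : ℕ, (ℓ : ℝ) ≤ A * (N : ℝ) ^ (1 / 8 : ℝ) ∧
          (N : ℝ) ^ (1 / 4 : ℝ) < (shortV B s ε p ℓ).card}.ncard : ℕ) : ℝ) ≤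
        C * (N : ℝ) ^ (-(1 / 10) : ℝ) * ((N.factorial : ℝ) ^ Fintype.card E) := by
  sorry

/-- CD/EDG: no edge outside the 2-factor inside a small set that depends only on the 2-factor. -/
theorem edg
    (hu1 : ∀ (N : ℕ) (A B : Finset (Fin N)) (r : ℕ),
      (univ.filter (fun σ : Equiv.Perm (Fin N) => r ≤ (A.filter (fun i => σ i ∈ B)).card)).card *
        N ^ r ≤ A.card.choose r * B.card ^ r * N.factorial)
    (B : OrGraph V E) (F : Finset E) (s : Equiv.Perm V) (ε : V → E) (hs : IsPerm B F s ε)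
    (N ℓ w : ℕ) :
    {p : E → Equiv.Perm (Fin N) | (shortV B s ε p ℓ).card ≤ w ∧ ∃ e, e ∉ F ∧ ∃ i,
        (B.t e, i) ∈ shortV B s ε p ℓ ∧ (B.h e, p e i) ∈ shortV B s ε p ℓ}.ncard * N ≤
      Fintype.card E * w ^ 2 * N.factorial ^ Fintype.card E := by
  sorry

end det

end Pool.Agent.N328.CD.Stm
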